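import Pool.Agent.Helper33.NS4

/-!
# The Charney-Davis inequality for ALL flag homology spheres, up to the bad simplices

Let the flag complex `L` of the finite graph `G` be a real homology sphere (`HSph`: the links of all
simplices, including the empty simplex, have the real homology of spheres) of dimension `2 m + 1`.  For
`i ≥ m + 2` let `B i` be a set of vertices which contains all the vertices whose links are not in the
class `AQ (2 i - 3)` of the starting library.  There is no condition on `B i` itself.
-/

set_option autoImplicit false

namespace Pool.Agent.Results.MP_fd533b_co.BadVertices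

open Pool.Agent.W907.SG Pool.Agent.TH652.Above
open Pool.Agent.Helper33.NS (cliqueNum)
open Pool.Agent.Helper33.NSF

/-- `(-1)^{m+1} λ(L) ≥ -2 (f_{m+2} / 2^{m+2} + f_{m+4} / 2^{m+4} + ...)`, where `f_i` is the number of the
simplices with `i` vertices all of whose vertices are in `B i`. -/
theorem result (m : ℕ) (V : Type) [Fintype V] [LinearOrder V] (G : SimpleGraph V)
    (hS : HSph (2 * m + 2) G) (B : ℕ → Set V) (hB : GoodOutside G B (m + 2)) :
    - (2 * ∑ j ∈ (Finset.range (m + 1)).filter Even,
      (cliqueNum G (B (m + 2 + j)) (m + 2 + j) : ℚ) / 2 ^ (m + 2 + j)) ≤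
      (-1 : ℚ) ^ (m + 1) * chiW G :=
  charney_davis_bad G m hS B hB

end Pool.Agent.Results.MP_fd533b_co.BadVertices
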